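import Pool.Agent.N303.LS.Stm

/-!
Project LS (helper303), part PEE (helper27): powers of the local energy are slowly varying.
-/

set_option autoImplicit false

namespace Pool.Agent.N27.LS

open MeasureTheory Pool.Agent.N303.LS
open scoped ENNReal FourierTransform RealInnerProductSpace SchwartzMap

theorem W_pos {d : ℕ} (M : ℕ) (x : E d) : 0 < W M x := by
  unfold W
  positivity

theorem W_cont {d : ℕ} (M : ℕ) : Continuous (W M : E d → ℝ) := by
  unfold W
  refine Continuous.inv₀ (by fun_prop) fun x => ?_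
  positivity

theorem W_neg {d : ℕ} (M : ℕ) (x : E d) : W M (-x) = W M x := by
  unfold W
  rw [norm_neg]

theorem W_comm {d : ℕ} (M : ℕ) (x z : E d) : W M (x - z) = W M (z - x) := by
  rw [← W_neg, neg_sub]

theorem W_mul {d : ℕ} (k m : ℕ) (x : E d) : (1 + ‖x‖ ^ 2) ^ m * W (m + k) x = W k x := by
  unfold W
  rw [pow_add, mul_inv, ← mul_assoc, mul_inv_cancel₀ (by positivity), one_mul]

/-- the inequality of Peetre -/
theorem peetre {d : ℕ} (M : ℕ) (x y z : E d) :
    W M (y - x) ≤ (2 * (1 + ‖x - z‖ ^ 2)) ^ M * W M (y - z) := by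
  unfold W
  rw [← div_eq_mul_inv, inv_eq_one_div, div_le_div_iff₀ (by positivity) (by positivity), one_mul,
    ← mul_pow]
  refine pow_le_pow_left₀ (by positivity) ?_ M
  have h1 : ‖y - z‖ ≤ ‖y - x‖ + ‖x - z‖ := by
    have := norm_add_le (y - x) (x - z)
    rwa [sub_add_sub_cancel] at this
  have h2 := norm_nonneg (y - z)
  have h3 := norm_nonneg (y - x)
  have h4 := norm_nonneg (x - z)
  nlinarith [sq_nonneg (‖y - x‖ - ‖x - z‖), mul_nonneg (sq_nonneg ‖y - x‖) (sq_nonneg ‖x - z‖)]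

theorem nrg_le {d : ℕ} (M : ℕ) (h : E d → ℂ) (x z : E d) :
    nrg M h x ≤ ENNReal.ofReal ((2 * (1 + ‖x - z‖ ^ 2)) ^ M) * nrg M h z := by
  unfold nrg
  rw [← lintegral_const_mul' _ _ ENNReal.ofReal_ne_top]
  refine lintegral_mono fun y => ?_
  show ‖h y‖ₑ ^ (2 : ℝ) * ENNReal.ofReal (W M (y - x)) ≤
    ENNReal.ofReal ((2 * (1 + ‖x - z‖ ^ 2)) ^ M) * (‖h y‖ₑ ^ (2 : ℝ) * ENNReal.ofReal (W M (y - z)))
  rw [mul_left_comm, ← ENNReal.ofReal_mul (by positivity)]
  gcongr
  exact peetre M x y z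

theorem nrg_pow_le {d : ℕ} (M : ℕ) (h : E d → ℂ) {q : ℝ} (hq : 0 ≤ q) {m : ℕ} (hm : M * q ≤ m)
    (x z : E d) :
    nrg M h x ^ q ≤ ENNReal.ofReal (2 ^ m * (1 + ‖x - z‖ ^ 2) ^ m) * nrg M h z ^ q := by
  calc nrg M h x ^ q ≤ (ENNReal.ofReal ((2 * (1 + ‖x - z‖ ^ 2)) ^ M) * nrg M h z) ^ q :=
        ENNReal.rpow_le_rpow (nrg_le M h x z) hq
    _ = ENNReal.ofReal (((2 * (1 + ‖x - z‖ ^ 2)) ^ M) ^ q) * nrg M h z ^ q := by
        rw [ENNReal.mul_rpow_of_nonneg _ _ hq, ENNReal.ofReal_rpow_of_nonneg (by positivity) hq]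
    _ ≤ _ := by
        gcongr
        rw [← Real.rpow_natCast (2 * (1 + ‖x - z‖ ^ 2)) M, ← Real.rpow_mul (by positivity),
          ← mul_pow, ← Real.rpow_natCast (2 * (1 + ‖x - z‖ ^ 2)) m]
        refine Real.rpow_le_rpow_of_exponent_le ?_ hm
        have := sq_nonneg ‖x - z‖
        linarith

theorem int_W {d : ℕ} (k : ℕ) (hk : d < 2 * k) :
    ∫⁻ z : E d, ENNReal.ofReal (W k z) < ∞ := by
  have h1 : Integrable (fun z : E d => (1 + ‖z‖ ^ 2) ^ (-((2 * k : ℕ) : ℝ) / 2)) volume := by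
    apply integrable_rpow_neg_one_add_norm_sq
    rw [finrank_euclideanSpace, Fintype.card_fin]
    exact_mod_cast hk
  have h2 : (fun z : E d => (1 + ‖z‖ ^ 2) ^ (-((2 * k : ℕ) : ℝ) / 2)) = W k := by
    funext z
    unfold W
    rw [← Real.rpow_natCast (1 + ‖z‖ ^ 2) k, ← Real.rpow_neg (by positivity)]
    congr 1
    push_cast
    ring
  rw [h2] at h1
  exact h1.lintegral_lt_top

theorem pos_W {d : ℕ} (k : ℕ) : 0 < ∫⁻ z : E d, ENNReal.ofReal (W k z) := by
  rw [lintegral_pos_iff_support (by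
    exact (ENNReal.measurable_ofReal.comp (W_cont k).measurable))]
  have h1 : Function.support (fun z : E d => ENNReal.ofReal (W k z)) = Set.univ := by
    refine Set.eq_univ_of_forall fun z => ?_
    rw [Function.mem_support]
    exact (ENNReal.ofReal_pos.2 (W_pos k z)).ne'
  rw [h1]
  exact isOpen_univ.measure_pos _ Set.univ_nonempty

theorem meas_W {d : ℕ} (k : ℕ) (x : E d) : Measurable fun z : E d => ENNReal.ofReal (W k (x - z)) :=
  ENNReal.measurable_ofReal.comp ((W_cont k).comp (by fun_prop)).measurable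

theorem trans_W {d : ℕ} (k : ℕ) (x : E d) :
    ∫⁻ z : E d, ENNReal.ofReal (W k (x - z)) = ∫⁻ z : E d, ENNReal.ofReal (W k z) :=
  lintegral_sub_left_eq_self (fun z : E d => ENNReal.ofReal (W k z)) x

theorem t_pee : S_PEE := by
  intro d M hdM q hq
  obtain ⟨m, hm⟩ : ∃ m : ℕ, M * q ≤ m := exists_nat_ge _
  obtain ⟨I1, hI1⟩ : ∃ I1, I1 = ∫⁻ z : E d, ENNReal.ofReal (W (d + 1) z) := ⟨_, rfl⟩
  obtain ⟨I2, hI2⟩ : ∃ I2, I2 = ∫⁻ z : E d, ENNReal.ofReal (W (m + (m + (d + 1))) z) := ⟨_, rfl⟩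
  have hI1t : I1 < ∞ := by
    rw [hI1]
    exact int_W _ (by omega)
  have hI2t : I2 < ∞ := by
    rw [hI2]
    exact int_W _ (by omega)
  have hI20 : 0 < I2 := by
    rw [hI2]
    exact pos_W _
  have hI2r : 0 < I2.toReal := ENNReal.toReal_pos hI20.ne' hI2t.ne
  have hI1r : 0 ≤ I1.toReal := ENNReal.toReal_nonneg
  refine ⟨m + (d + 1), 2 ^ m * I1.toReal + 2 ^ m * I2.toReal⁻¹, by omega, by positivity,
    fun g x => ⟨?_, ?_⟩⟩
  · -- the first inequality
    have h1 : nrg M g x ^ q * I2 ≤ ENNReal.ofReal (2 ^ m) *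
        ∫⁻ z : E d, nrg M g z ^ q * ENNReal.ofReal (W (m + (d + 1)) (x - z)) := by
      rw [hI2, ← trans_W _ x, ← lintegral_const_mul _ (meas_W _ x),
        ← lintegral_const_mul' _ _ ENNReal.ofReal_ne_top]
      refine lintegral_mono fun z => ?_
      show nrg M g x ^ q * ENNReal.ofReal (W (m + (m + (d + 1))) (x - z)) ≤
        ENNReal.ofReal (2 ^ m) * (nrg M g z ^ q * ENNReal.ofReal (W (m + (d + 1)) (x - z)))
      calc nrg M g x ^ q * ENNReal.ofReal (W (m + (m + (d + 1))) (x - z))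
          ≤ ENNReal.ofReal (2 ^ m * (1 + ‖x - z‖ ^ 2) ^ m) * nrg M g z ^ q *
            ENNReal.ofReal (W (m + (m + (d + 1))) (x - z)) := by
            gcongr
            exact nrg_pow_le M g hq hm x z
        _ = nrg M g z ^ q * (ENNReal.ofReal (2 ^ m * (1 + ‖x - z‖ ^ 2) ^ m) *
            ENNReal.ofReal (W (m + (m + (d + 1))) (x - z))) := by ring
        _ = nrg M g z ^ q * (ENNReal.ofReal (2 ^ m) *
            ENNReal.ofReal (W (m + (d + 1)) (x - z))) := by
            rw [← ENNReal.ofReal_mul (by positivity), mul_assoc, W_mul,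
              ENNReal.ofReal_mul (by positivity)]
        _ = _ := by ring
    calc nrg M g x ^ q = nrg M g x ^ q * I2 * I2⁻¹ := by
          rw [mul_assoc, ENNReal.mul_inv_cancel hI20.ne' hI2t.ne, mul_one]
      _ ≤ (ENNReal.ofReal (2 ^ m) *
        ∫⁻ z : E d, nrg M g z ^ q * ENNReal.ofReal (W (m + (d + 1)) (x - z))) * I2⁻¹ := by
          gcongr
      _ = ENNReal.ofReal (2 ^ m * I2.toReal⁻¹) *
        ∫⁻ z : E d, nrg M g z ^ q * ENNReal.ofReal (W (m + (d + 1)) (x - z)) := by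
          rw [ENNReal.ofReal_mul (by positivity), ENNReal.ofReal_inv_of_pos hI2r,
            ENNReal.ofReal_toReal hI2t.ne]
          ring
      _ ≤ _ := by
          gcongr
          have : 0 ≤ 2 ^ m * I1.toReal := by positivity
          linarith
  · -- the second inequality
    have h1 : ∫⁻ z : E d, nrg M g z ^ q * ENNReal.ofReal (W (m + (d + 1)) (x - z)) ≤
        ENNReal.ofReal (2 ^ m) * nrg M g x ^ q * I1 := by
      rw [hI1, ← trans_W _ x, ← lintegral_const_mul _ (meas_W _ x)]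
      refine lintegral_mono fun z => ?_
      show nrg M g z ^ q * ENNReal.ofReal (W (m + (d + 1)) (x - z)) ≤
        ENNReal.ofReal (2 ^ m) * nrg M g x ^ q * ENNReal.ofReal (W (d + 1) (x - z))
      calc nrg M g z ^ q * ENNReal.ofReal (W (m + (d + 1)) (x - z))
          ≤ ENNReal.ofReal (2 ^ m * (1 + ‖z - x‖ ^ 2) ^ m) * nrg M g x ^ q *
            ENNReal.ofReal (W (m + (d + 1)) (x - z)) := by
            gcongr
            exact nrg_pow_le M g hq hm z x
        _ = nrg M g x ^ q * (ENNReal.ofReal (2 ^ m * (1 + ‖x - z‖ ^ 2) ^ m) *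
            ENNReal.ofReal (W (m + (d + 1)) (x - z))) := by
            rw [norm_sub_rev z x]
            ring
        _ = nrg M g x ^ q * (ENNReal.ofReal (2 ^ m) * ENNReal.ofReal (W (d + 1) (x - z))) := by
            rw [← ENNReal.ofReal_mul (by positivity), mul_assoc, W_mul,
              ENNReal.ofReal_mul (by positivity)]
        _ = _ := by ring
    calc _ ≤ ENNReal.ofReal (2 ^ m) * nrg M g x ^ q * I1 := h1
      _ = ENNReal.ofReal (2 ^ m * I1.toReal) * nrg M g x ^ q := by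
          rw [ENNReal.ofReal_mul (by positivity), ENNReal.ofReal_toReal hI1t.ne]
          ring
      _ ≤ _ := by
          gcongr
          have : 0 ≤ 2 ^ m * I2.toReal⁻¹ := by positivity
          linarith

end Pool.Agent.N27.LS
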